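import Pool.Agent.helper38.AT.Spec

set_option autoImplicit false

namespace Pool.Agent.AT

open Finset Real

theorem BXA_bad (p : ℕ) (hp : p.Prime) (f : ℕ × ℤ) (hf : ∃ n : ℕ, ¬ (p : ℤ) ∣ (f.1 : ℤ) * n + f.2) :
    #{r ∈ range p | (p : ℤ) ∣ (f.1 : ℤ) * (r : ℕ) + f.2} ≤ 1 := by
  rw [Finset.card_le_one]
  intro a ha b hb
  have ha' := Finset.mem_filter.1 ha
  have hb' := Finset.mem_filter.1 hb
  have hap := Finset.mem_range.1 ha'.1
  have hbp := Finset.mem_range.1 hb'.1
  have hpz : Prime (p : ℤ) := Nat.prime_iff_prime_int.1 hp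
  have h1 : (p : ℤ) ∣ (f.1 : ℤ) * ((a : ℤ) - b) := by
    have := dvd_sub ha'.2 hb'.2
    have e : (f.1 : ℤ) * (a : ℤ) + f.2 - ((f.1 : ℤ) * (b : ℤ) + f.2) = (f.1 : ℤ) * ((a : ℤ) - b) := by ring
    rwa [e] at this
  rcases hpz.dvd_or_dvd h1 with h | h
  · exfalso
    obtain ⟨n, hn⟩ := hf
    have h2 : (p : ℤ) ∣ f.2 := by
      have := dvd_sub ha'.2 (h.mul_right (a : ℤ))
      simpa using this
    exact hn (dvd_add (h.mul_right _) h2)
  · have h3 : (a : ℤ) - b = 0 := by
      apply Int.eq_zero_of_abs_lt_dvd h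
      rw [abs_lt]
      constructor <;> omega
    omega

theorem BXA : BXA_stmt := by
  classical
  intro k K W H hK hcard hW hres hadm p hp
  have hne : ∀ i, (H i).Nonempty := fun i => Finset.card_pos.1 (by rw [hcard i]; omega)
  choose g hg using hne
  have hgm : g ∈ Fintype.piFinset H := Fintype.mem_piFinset.2 hg
  by_cases hpW : p ∣ W
  · obtain ⟨n, hn⟩ := hadm g hgm p hp
    refine ⟨n, fun i f hf hd => hn i ?_⟩
    obtain ⟨h1, h2⟩ := hres i f hf (g i) (hg i)
    have hpz : (p : ℤ) ∣ (W : ℤ) := Int.natCast_dvd_natCast.2 hpW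
    have h3 : (p : ℤ) ∣ ((f.1 : ℤ) - (g i).1) * n + (f.2 - (g i).2) :=
      dvd_add ((hpz.trans h1).mul_right _) (hpz.trans h2)
    have h4 := dvd_sub hd h3
    have e : (f.1 : ℤ) * n + f.2 - (((f.1 : ℤ) - (g i).1) * n + (f.2 - (g i).2)) = ((g i).1 : ℤ) * n + (g i).2 := by
      ring
    rwa [e] at h4
  · have hlt : k * K < p := by
      by_contra hcon
      exact hpW (hW p hp (by omega))
    have hform : ∀ i, ∀ f ∈ H i, ∃ n : ℕ, ¬ (p : ℤ) ∣ (f.1 : ℤ) * n + f.2 := by
      intro i f hf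
      have hm : Function.update g i f ∈ Fintype.piFinset H := by
        refine Fintype.mem_piFinset.2 fun l => ?_
        rcases eq_or_ne l i with h | h
        · subst h; simpa using hf
        · simpa [Function.update_of_ne h] using hg l
      obtain ⟨n, hn⟩ := hadm _ hm p hp
      refine ⟨n, ?_⟩
      have := hn i
      simpa using this
    have hall : #((univ : Finset (Fin k)).biUnion fun i => (H i).biUnion fun f =>
        {r ∈ range p | (p : ℤ) ∣ (f.1 : ℤ) * (r : ℕ) + f.2}) ≤ k * K := by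
      refine Finset.card_biUnion_le.trans ?_
      have h1 : ∀ i ∈ (univ : Finset (Fin k)), #((H i).biUnion fun f =>
          {r ∈ range p | (p : ℤ) ∣ (f.1 : ℤ) * (r : ℕ) + f.2}) ≤ K := by
        intro i _
        refine Finset.card_biUnion_le.trans ?_
        refine (Finset.sum_le_card_nsmul _ _ 1 fun f hf => BXA_bad p hp f (hform i f hf)).trans ?_
        rw [hcard i]; simp
      refine (Finset.sum_le_card_nsmul _ _ K h1).trans ?_
      simp
    have hex : ∃ n ∈ range p, n ∉ ((univ : Finset (Fin k)).biUnion fun i => (H i).biUnion fun f =>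
        {r ∈ range p | (p : ℤ) ∣ (f.1 : ℤ) * (r : ℕ) + f.2}) := by
      by_contra hcon
      push Not at hcon
      have h2 := Finset.card_le_card (show range p ⊆ _ from hcon)
      rw [Finset.card_range] at h2
      omega
    obtain ⟨n, hn, hn2⟩ := hex
    refine ⟨n, fun i f hf hd => hn2 ?_⟩
    refine Finset.mem_biUnion.2 ⟨i, Finset.mem_univ _, Finset.mem_biUnion.2 ⟨f, hf, Finset.mem_filter.2 ⟨hn, hd⟩⟩⟩

end Pool.Agent.AT
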