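import Pool.Agent.helper38.AT.Spec

set_option autoImplicit false

namespace Pool.Agent.AT

open Finset Real

/-- a form in an admissible tuple has coprime coefficients -/
theorem BXF_cop (f : ℕ × ℤ) (h : ∀ p : ℕ, p.Prime → ∃ n : ℕ, ¬ (p : ℤ) ∣ (f.1 : ℤ) * n + f.2) :
    IsCoprime (f.1 : ℤ) f.2 := by
  rw [Int.isCoprime_iff_gcd_eq_one]
  by_contra hcon
  obtain ⟨p, hp, hd⟩ := Nat.exists_prime_and_dvd hcon
  obtain ⟨n, hn⟩ := h p hp
  have h1 : (p : ℤ) ∣ (f.1 : ℤ) := (Int.natCast_dvd_natCast.2 hd).trans (Int.gcd_dvd_left _ _)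
  have h2 : (p : ℤ) ∣ f.2 := (Int.natCast_dvd_natCast.2 hd).trans (Int.gcd_dvd_right _ _)
  exact hn (dvd_add (h1.mul_right _) h2)

theorem BXF_prop (f g : ℕ × ℤ) (hf : 0 < f.1) (hfc : IsCoprime (f.1 : ℤ) f.2)
    (hgc : IsCoprime (g.1 : ℤ) g.2) (h : (f.1 : ℤ) * g.2 = g.1 * f.2) : f = g := by
  have h1 : (f.1 : ℤ) ∣ g.1 := by
    have : (f.1 : ℤ) ∣ (g.1 : ℤ) * f.2 := ⟨g.2, h.symm⟩
    exact hfc.dvd_of_dvd_mul_right this
  have h2 : (g.1 : ℤ) ∣ f.1 := by
    have : (g.1 : ℤ) ∣ (f.1 : ℤ) * g.2 := ⟨f.2, h⟩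
    exact hgc.dvd_of_dvd_mul_right this
  have h3 : f.1 = g.1 := Nat.dvd_antisymm (Int.natCast_dvd_natCast.1 h1) (Int.natCast_dvd_natCast.1 h2)
  have h4 : f.2 = g.2 := by
    have hz : (f.1 : ℤ) ≠ 0 := by exact_mod_cast hf.ne'
    apply mul_left_cancel₀ hz
    rw [h, ← h3]
  exact Prod.ext h3 h4

theorem BXF (h : BXA_stmt) : BXF_stmt := by
  classical
  intro k hk hFM
  obtain ⟨K, hK, hmain⟩ := hFM
  refine ⟨K, hK, ?_⟩
  intro W H hcard hW hres hpos hadm hinj
  have hne : ∀ i, (H i).Nonempty := fun i => Finset.card_pos.1 (by rw [hcard i]; omega)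
  choose g hg using hne
  have hgm : g ∈ Fintype.piFinset H := Fintype.mem_piFinset.2 hg
  have hupd : ∀ (t : Fin k → ℕ × ℤ), t ∈ Fintype.piFinset H → ∀ i, ∀ f ∈ H i,
      Function.update t i f ∈ Fintype.piFinset H := by
    intro t ht i f hf
    refine Fintype.mem_piFinset.2 fun l => ?_
    rcases eq_or_ne l i with h | h
    · subst h; simpa using hf
    · simpa [Function.update_of_ne h] using Fintype.mem_piFinset.1 ht l
  have hcop : ∀ i, ∀ f ∈ H i, IsCoprime (f.1 : ℤ) f.2 := by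
    intro i f hf
    refine BXF_cop f fun p hp => ?_
    obtain ⟨n, hn⟩ := hadm _ (hupd g hgm i f hf) p hp
    refine ⟨n, ?_⟩
    have := hn i
    simpa using this
  -- the enumeration
  let e : (i : Fin k) → Fin K → ℕ × ℤ := fun i x => ((Finset.equivFinOfCardEq (hcard i)).symm x : H i).1
  have hem : ∀ i x, e i x ∈ H i := fun i x => ((Finset.equivFinOfCardEq (hcard i)).symm x).2
  have heinj : ∀ i x y, e i x = e i y → x = y := by
    intro i x y hxy
    exact (Finset.equivFinOfCardEq (hcard i)).symm.injective (Subtype.ext hxy)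
  have hfin := hmain (fun x => (e x.1 x.2).1) (fun x => (e x.1 x.2).2) (fun x => hpos _ _ (hem _ _))
    (by
      intro x y hxy heq
      have h1 : e x.1 x.2 = e y.1 y.2 :=
        BXF_prop _ _ (hpos _ _ (hem _ _)) (hcop _ _ (hem _ _)) (hcop _ _ (hem _ _)) heq
      rcases eq_or_ne x.1 y.1 with h2 | h2
      · obtain ⟨x1, x2⟩ := x
        obtain ⟨y1, y2⟩ := y
        simp only at h2 h1
        subst h2
        exact hxy (by rw [heinj _ _ _ h1])
      · have h3 := hinj _ (hupd _ (hupd g hgm x.1 _ (hem x.1 x.2)) y.1 _ (hem y.1 y.2))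
        apply h2
        apply h3
        rw [Function.update_self, Function.update_of_ne h2, Function.update_self]
        exact h1)
    (by
      intro p hp
      obtain ⟨n, hn⟩ := h k K W H hK hcard hW hres hadm p hp
      exact ⟨n, fun x => hn x.1 _ (hem _ _)⟩)
  by_contra hcon
  push Not at hcon
  have hcon2 : ∀ f : Fin k → ℕ × ℤ, ∃ N : ℕ, f ∈ Fintype.piFinset H →
      ∀ n ≥ N, (hits f n : ℝ) ≤ (1 / 4 + 1 / 500000 : ℝ) * k := by
    intro f
    by_cases hf : f ∈ Fintype.piFinset H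
    · have := hcon f hf
      unfold Many at this
      push Not at this
      obtain ⟨N, hN⟩ := this
      exact ⟨N, fun _ => hN⟩
    · exact ⟨0, fun h => absurd h hf⟩
  choose Nf hNf using hcon2
  obtain ⟨n, hn, hn2⟩ := hfin ((Fintype.piFinset H).sup Nf)
  let f : Fin k → ℕ × ℤ := fun j => if hx : ∃ x : Fin K, (((e j x).1 : ℤ) * n + (e j x).2).toNat.Prime
    then e j hx.choose else g j
  have hfm : f ∈ Fintype.piFinset H := by
    refine Fintype.mem_piFinset.2 fun j => ?_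
    by_cases hx : ∃ x : Fin K, (((e j x).1 : ℤ) * n + (e j x).2).toNat.Prime
    · simp only [f, dif_pos hx]; exact hem _ _
    · simp only [f, dif_neg hx]; exact hg j
  have h5 := hNf f hfm n ((Finset.le_sup hfm).trans hn)
  refine absurd (hn2.trans_le ?_) (not_lt.2 h5)
  have h6 : #{j : Fin k | ∃ x : Fin K, (((e j x).1 : ℤ) * n + (e j x).2).toNat.Prime} ≤ hits f n := by
    refine Finset.card_le_card fun j hj => ?_
    have hx := (Finset.mem_filter.1 hj).2
    refine Finset.mem_filter.2 ⟨Finset.mem_univ _, ?_⟩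
    have h7 : f j = e j hx.choose := by simp only [f, dif_pos hx]
    rw [h7]
    exact hx.choose_spec
  exact_mod_cast h6

end Pool.Agent.AT
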