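import Pool.Agent.helper38.AT.Spec

set_option autoImplicit false

namespace Pool.Agent.AT

open Finset Real

open Classical in
theorem COI_pair {k : ℕ} (F : Fin k → Finset (ℕ × ℤ)) (i j : Fin k) (hij : i ≠ j) :
    #{f ∈ Fintype.piFinset F | f i = f j} * #(F i) ≤ ∏ l, #(F l) := by
  rw [← Fintype.card_piFinset F, ← Finset.card_product]
  refine Finset.card_le_card_of_injOn (fun x => Function.update x.1 i x.2) ?_ ?_
  · rintro ⟨f, a⟩ hx
    have hx' := Finset.mem_product.1 (Finset.mem_coe.1 hx)
    have h1 := (Finset.mem_filter.1 hx'.1).1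
    refine Finset.mem_coe.2 (Fintype.mem_piFinset.2 fun l => ?_)
    rcases eq_or_ne l i with h | h
    · subst h
      simpa using hx'.2
    · simpa [Function.update_of_ne h] using Fintype.mem_piFinset.1 h1 l
  · rintro ⟨f, a⟩ hx ⟨g, b⟩ hy hxy
    have hx' := Finset.mem_product.1 (Finset.mem_coe.1 hx)
    have hy' := Finset.mem_product.1 (Finset.mem_coe.1 hy)
    have h1 := (Finset.mem_filter.1 hx'.1).2
    have h2 := (Finset.mem_filter.1 hy'.1).2
    simp only at hxy h1 h2
    have hab : a = b := by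
      have := congrFun hxy i
      simpa using this
    have hfg : ∀ l, l ≠ i → f l = g l := fun l hl => by
      have := congrFun hxy l
      simpa [Function.update_of_ne hl] using this
    have hf : f = g := by
      funext l
      rcases eq_or_ne l i with h | h
      · subst h
        rw [h1, h2]
        exact hfg j hij.symm
      · exact hfg l h
    rw [hf, hab]

theorem COI : COI_stmt := by
  classical
  intro k L F hL hF
  have hsub : ({f ∈ Fintype.piFinset F | ¬ Function.Injective f} : Finset _) ⊆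
      ((univ : Finset (Fin k × Fin k)).filter (fun x => x.1 ≠ x.2)).biUnion
        (fun x => {f ∈ Fintype.piFinset F | f x.1 = f x.2}) := by
    intro f hf
    have h1 := Finset.mem_filter.1 hf
    have h2 : ∃ i j, f i = f j ∧ i ≠ j := by
      by_contra hcon
      push Not at hcon
      exact h1.2 fun i j hij => hcon i j hij
    obtain ⟨i, j, hij, hne⟩ := h2
    refine Finset.mem_biUnion.2 ⟨(i, j), Finset.mem_filter.2 ⟨Finset.mem_univ _, hne⟩, ?_⟩
    exact Finset.mem_filter.2 ⟨h1.1, hij⟩
  have hcard : (#{f ∈ Fintype.piFinset F | ¬ Function.Injective f} : ℝ) ≤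
      ∑ x ∈ ((univ : Finset (Fin k × Fin k)).filter (fun x => x.1 ≠ x.2)),
        (#{f ∈ Fintype.piFinset F | f x.1 = f x.2} : ℝ) := by
    have h1 := (Finset.card_le_card hsub).trans Finset.card_biUnion_le
    exact_mod_cast h1
  have hLpos : (0 : ℝ) < L := by exact_mod_cast hL
  have hpair : ∀ x ∈ ((univ : Finset (Fin k × Fin k)).filter (fun x => x.1 ≠ x.2)),
      (#{f ∈ Fintype.piFinset F | f x.1 = f x.2} : ℝ) ≤ (∏ i, (#(F i) : ℝ)) / L := by
    intro x hx
    have hne := (Finset.mem_filter.1 hx).2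
    have h1 := COI_pair F x.1 x.2 hne
    rw [le_div_iff₀ hLpos]
    have h2 : #{f ∈ Fintype.piFinset F | f x.1 = f x.2} * L ≤ ∏ l, #(F l) :=
      (Nat.mul_le_mul_left _ (hF x.1)).trans h1
    exact_mod_cast h2
  refine hcard.trans ((Finset.sum_le_sum hpair).trans ?_)
  rw [Finset.sum_const, nsmul_eq_mul]
  have h3 : (#((univ : Finset (Fin k × Fin k)).filter (fun x => x.1 ≠ x.2)) : ℝ) ≤ (k : ℝ) ^ 2 := by
    have h4 := Finset.card_filter_le (univ : Finset (Fin k × Fin k)) (fun x => x.1 ≠ x.2)
    have h5 : #(univ : Finset (Fin k × Fin k)) = k ^ 2 := by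
      rw [Finset.card_univ, Fintype.card_prod, Fintype.card_fin, sq]
    rw [h5] at h4
    exact_mod_cast h4
  have hP : (0 : ℝ) ≤ (∏ i, (#(F i) : ℝ)) / L := by positivity
  calc _ ≤ (k : ℝ) ^ 2 * ((∏ i, (#(F i) : ℝ)) / L) := mul_le_mul_of_nonneg_right h3 hP
    _ = _ := by ring

end Pool.Agent.AT
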